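import Mathlib

set_option autoImplicit false

/-!
Checked positivity of integer polynomials (given by their coefficient lists) on intervals, and the
single-letter inequality used for hyperplane sections of `{0, ±1, ±2}^n`.
-/

namespace Pool.Agent.Helper36.Hyper

/-- Evaluation of a coefficient list. -/
def ev : List ℤ → ℝ → ℝ
  | [], _ => 0
  | c :: p, x => c + x * ev p x

/-- Sum of coefficient lists. -/
def ladd : List ℤ → List ℤ → List ℤ
  | [], q => q
  | a :: p, [] => a :: p
  | a :: p, b :: q => (a + b) :: ladd p q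

/-- Multiplication by a constant. -/
def lsmul (c : ℤ) (p : List ℤ) : List ℤ := p.map (fun a => c * a)

/-- Product of coefficient lists. -/
def lmul : List ℤ → List ℤ → List ℤ
  | [], _ => []
  | a :: p, q => ladd (lsmul a q) (0 :: lmul p q)

/-- Powers. -/
def lpow (p : List ℤ) : ℕ → List ℤ
  | 0 => [1]
  | n + 1 => lmul p (lpow p n)

/-- `p(u + w s)` as a list in `s`. -/
def lcomp (u w : ℤ) : List ℤ → List ℤ
  | [] => []
  | c :: p => ladd [c] (lmul [u, w] (lcomp u w p))

theorem ev_ladd (p q : List ℤ) (x : ℝ) : ev (ladd p q) x = ev p x + ev q x := by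
  induction p generalizing q with
  | nil => simp [ladd, ev]
  | cons a p ih =>
    cases q with
    | nil => simp [ladd, ev]
    | cons b q =>
      simp only [ladd, ev, ih]
      push_cast
      ring

theorem ev_lsmul (c : ℤ) (p : List ℤ) (x : ℝ) : ev (lsmul c p) x = c * ev p x := by
  induction p with
  | nil => simp [lsmul, ev]
  | cons a p ih =>
    simp only [lsmul, List.map_cons, ev] at ih ⊢
    rw [ih]
    push_cast
    ring

theorem ev_lmul (p q : List ℤ) (x : ℝ) : ev (lmul p q) x = ev p x * ev q x := by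
  induction p with
  | nil => simp [lmul, ev]
  | cons a p ih =>
    simp only [lmul, ev_ladd, ev_lsmul, ev, ih]
    push_cast
    ring

theorem ev_lpow (p : List ℤ) (n : ℕ) (x : ℝ) : ev (lpow p n) x = ev p x ^ n := by
  induction n with
  | zero => simp [lpow, ev]
  | succ n ih =>
    rw [lpow, ev_lmul, ih, pow_succ]
    ring

theorem ev_lcomp (u w : ℤ) (p : List ℤ) (s : ℝ) :
    ev (lcomp u w p) s = ev p (u + w * s) := by
  induction p with
  | nil => simp [lcomp, ev]
  | cons c p ih =>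
    simp only [lcomp, ev_ladd, ev_lmul, ev, ih]
    push_cast
    ring

theorem ev_append (p q : List ℤ) (x : ℝ) : ev (p ++ q) x = ev p x + x ^ p.length * ev q x := by
  induction p with
  | nil => simp [ev]
  | cons a p ih =>
    simp only [List.cons_append, ev, ih, List.length_cons, pow_succ]
    ring

theorem ev_reverse (p : List ℤ) (z : ℝ) (hz : z ≠ 0) :
    z * ev p.reverse z = z ^ p.length * ev p z⁻¹ := by
  induction p with
  | nil => simp [ev]
  | cons a p ih =>
    rw [List.reverse_cons, ev_append, List.length_reverse, mul_add, ih, List.length_cons]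
    simp only [ev, mul_zero, add_zero, pow_succ]
    field_simp
    ring

theorem ev_nonneg (p : List ℤ) (hp : ∀ c ∈ p, 0 ≤ c) (x : ℝ) (hx : 0 ≤ x) : 0 ≤ ev p x := by
  induction p with
  | nil => simp [ev]
  | cons a p ih =>
    simp only [ev]
    have h1 : (0 : ℝ) ≤ a := by exact_mod_cast hp a (by simp)
    have h2 := ih fun c hc => hp c (by simp [hc])
    positivity

/-- Check that the polynomial is nonnegative on the interval `[u, u + w]`. -/
def chk (p : List ℤ) (u w : ℤ) : Bool :=
  (lcomp 1 1 (lcomp u w p).reverse).all (fun c => decide (0 ≤ c)) &&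
    decide (0 ≤ (lcomp u w p).headD 0)

theorem nonneg_of_chk (p : List ℤ) (u w : ℤ) (hw : 0 < w) (h : chk p u w = true) (x : ℝ)
    (h1 : (u : ℝ) ≤ x) (h2 : x ≤ u + w) : 0 ≤ ev p x := by
  simp only [chk, Bool.and_eq_true, List.all_eq_true, decide_eq_true_eq] at h
  obtain ⟨h3, h4⟩ := h
  have hw' : (0 : ℝ) < w := by exact_mod_cast hw
  obtain ⟨s, hs⟩ : ∃ s : ℝ, x = u + w * s := ⟨(x - u) / w, by field_simp; ring⟩
  have hs0 : 0 ≤ s := by
    by_contra hcon
    push Not at hcon
    nlinarith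
  have hs1 : s ≤ 1 := by
    by_contra hcon
    push Not at hcon
    nlinarith
  rw [hs, ← ev_lcomp]
  generalize lcomp u w p = q at h3 h4 ⊢
  rcases hs0.eq_or_lt with h0 | h0
  · rw [← h0]
    cases q with
    | nil => simp [ev]
    | cons a q =>
      simp only [List.headD_cons] at h4
      simp only [ev, zero_mul, add_zero]
      exact_mod_cast h4
  · have hz : s⁻¹ ≠ 0 := inv_ne_zero h0.ne'
    have h5 := ev_reverse q s⁻¹ hz
    rw [inv_inv] at h5
    have h6 : 0 ≤ ev q.reverse s⁻¹ := by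
      have h7 : s⁻¹ = ((1 : ℤ) : ℝ) + ((1 : ℤ) : ℝ) * (s⁻¹ - 1) := by push_cast; ring
      rw [h7, ← ev_lcomp]
      apply ev_nonneg _ h3
      have : 1 ≤ s⁻¹ := (one_le_inv₀ h0).mpr hs1
      linarith
    have h8 : 0 ≤ (s⁻¹) ^ q.length * ev q s := by
      rw [← h5]
      positivity
    have h9 : 0 < (s⁻¹) ^ q.length := by positivity
    exact nonneg_of_mul_nonneg_right h8 h9

/-- Check on a chain of consecutive intervals with the given lengths. -/
def chain (p : List ℤ) : ℤ → List ℤ → Bool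
  | _, [] => true
  | u, w :: l => chk p u w && decide (0 < w) && chain p (u + w) l

theorem nonneg_of_chain (p : List ℤ) (l : List ℤ) (u : ℤ) (h : chain p u l = true) (x : ℝ)
    (h1 : (u : ℝ) ≤ x) (h2 : x ≤ u + l.sum) (hl : l ≠ []) : 0 ≤ ev p x := by
  induction l generalizing u with
  | nil => exact absurd rfl hl
  | cons w l ih =>
    simp only [chain, Bool.and_eq_true, decide_eq_true_eq] at h
    obtain ⟨⟨h3, h4⟩, h5⟩ := h
    rcases le_total x (u + w) with h6 | h6
    · exact nonneg_of_chk p u w h4 h3 x h1 h6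
    · rcases eq_or_ne l [] with rfl | hl'
      · simp only [List.sum_cons, List.sum_nil, add_zero] at h2
        exact nonneg_of_chk p u w h4 h3 x h1 h2
      · apply ih (u + w) h5 _ _ hl'
        · push_cast
          exact h6
        · push_cast
          rw [List.sum_cons] at h2
          push_cast at h2
          linarith

/-- `640000 * (1 + r₁ X / 64)`. -/
def P1 : List ℤ := [640000, 9087]
/-- `40960000 * (1 + r₂ (2 (X/64)^2 - 1))`. -/
def P2 : List ℤ := [768 * 4096, 0, 18464]
/-- `10000 * 2^24 * (1 + r₄ T₄(X/64))`. -/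
def P4 : List ℤ := [19188 * 16777216, 0, -(73504 * 4096), 0, 73504]
/-- `4096 * (4 (X/64)^2 + 2 X/64 - 1)`. -/
def PD : List ℤ := [-4096, 128, 4]

/-- The common positive factor. -/
def RR : List ℤ := lmul (lpow P1 9) (lmul (lpow P2 6) (lpow P4 2))

/-- `2.611^17 R₁^9 R₂^6 R₄^2 - D^17`, cleared of denominators. -/
def PA (e : ℤ) : List ℤ :=
  ladd (lsmul (2611 ^ 17 * 4096 ^ 17) RR)
    (lsmul (e * (1000 ^ 17 * 640000 ^ 9 * 40960000 ^ 6 * (10000 * 16777216) ^ 2)) (lpow PD 17))

theorem chain_neg : chain (PA (-1)) (-64) [32, 32, 32, 16, 4, 4, 8] = true := by decide +kernel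

theorem chain_pos : chain (PA 1) (-64) [32, 16, 8, 8, 32, 32] = true := by decide +kernel

theorem cert_aux (e : ℤ) (he : e = 1 ∨ e = -1) (X : ℝ) (h1 : -64 ≤ X) (h2 : X ≤ 64) :
    0 ≤ ev (PA e) X := by
  rcases he with rfl | rfl
  · exact nonneg_of_chain _ _ _ chain_pos X (by push_cast; linarith)
      (by norm_num [List.sum_cons]; linarith) (by simp)
  · exact nonneg_of_chain _ _ _ chain_neg X (by push_cast; linarith)
      (by norm_num [List.sum_cons]; linarith) (by simp)

/-- The single-letter inequality. -/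
theorem cert (x : ℝ) (h1 : -1 ≤ x) (h2 : x ≤ 1) :
    |4 * x ^ 2 + 2 * x - 1| ^ 17 ≤ (2.611 : ℝ) ^ 17 * (1 + 0.9087 * x) ^ 9 *
      (1 + 0.9232 * (2 * x ^ 2 - 1)) ^ 6 * (1 + 0.9188 * (8 * x ^ 4 - 8 * x ^ 2 + 1)) ^ 2 := by
  have hP1 : ev P1 (64 * x) = 640000 * (1 + 0.9087 * x) := by
    simp only [P1, ev]
    push_cast
    ring
  have hP2 : ev P2 (64 * x) = 40960000 * (1 + 0.9232 * (2 * x ^ 2 - 1)) := by
    simp only [P2, ev]
    push_cast
    ring
  have hP4 : ev P4 (64 * x) = (10000 * 16777216) * (1 + 0.9188 * (8 * x ^ 4 - 8 * x ^ 2 + 1)) := by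
    simp only [P4, ev]
    push_cast
    ring
  have hPD : ev PD (64 * x) = 4096 * (4 * x ^ 2 + 2 * x - 1) := by
    simp only [PD, ev]
    push_cast
    ring
  have key : ∀ e : ℤ, ev (PA e) (64 * x) =
      (1000 ^ 17 * 4096 ^ 17 * 640000 ^ 9 * 40960000 ^ 6 * (10000 * 16777216) ^ 2) *
      ((2.611 : ℝ) ^ 17 * (1 + 0.9087 * x) ^ 9 *
      (1 + 0.9232 * (2 * x ^ 2 - 1)) ^ 6 * (1 + 0.9188 * (8 * x ^ 4 - 8 * x ^ 2 + 1)) ^ 2 +
      e * (4 * x ^ 2 + 2 * x - 1) ^ 17) := by
    intro e
    rw [PA, ev_ladd, ev_lsmul, ev_lsmul, RR, ev_lmul, ev_lmul, ev_lpow, ev_lpow, ev_lpow,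
      ev_lpow, hP1, hP2, hP4, hPD]
    push_cast
    generalize (1 + 0.9087 * x) = A
    generalize (1 + 0.9232 * (2 * x ^ 2 - 1)) = B
    generalize (1 + 0.9188 * (8 * x ^ 4 - 8 * x ^ 2 + 1)) = C
    generalize (4 * x ^ 2 + 2 * x - 1) = D
    norm_num [mul_pow]
    ring
  have h3 := cert_aux 1 (Or.inl rfl) (64 * x) (by linarith) (by linarith)
  have h4 := cert_aux (-1) (Or.inr rfl) (64 * x) (by linarith) (by linarith)
  rw [key] at h3 h4
  have h5 := nonneg_of_mul_nonneg_right h3 (by norm_num)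
  have h6 := nonneg_of_mul_nonneg_right h4 (by norm_num)
  push_cast at h5 h6
  rcases abs_choice (4 * x ^ 2 + 2 * x - 1) with h7 | h7
  · rw [h7]
    linarith
  · rw [h7, Odd.neg_pow (by decide)]
    linarith

end Pool.Agent.Helper36.Hyper
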