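import Mathlib

set_option autoImplicit false

/-!
Mean values of real trigonometric sums, and the expansion of products
`∏ f (a_i t)` of trigonometric polynomials.
-/

namespace Pool.Agent.Helper36.Hyper

open Finset

/-- `h` has mean value `m` over the real line: some antiderivative of `h` stays at bounded
distance from `m t`. -/
def MeanIs (h : ℝ → ℝ) (m : ℝ) : Prop :=
  ∃ Φ : ℝ → ℝ, (∀ t, HasDerivAt Φ (h t) t) ∧ ∃ C : ℝ, ∀ t, |Φ t - m * t| ≤ C

theorem MeanIs.add {h k : ℝ → ℝ} {m l : ℝ} (hh : MeanIs h m) (hk : MeanIs k l) :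
    MeanIs (fun t => h t + k t) (m + l) := by
  obtain ⟨Φ, h1, C, h2⟩ := hh
  obtain ⟨Ψ, h3, D, h4⟩ := hk
  refine ⟨fun t => Φ t + Ψ t, fun t => (h1 t).add (h3 t), C + D, fun t => ?_⟩
  have : Φ t + Ψ t - (m + l) * t = (Φ t - m * t) + (Ψ t - l * t) := by ring
  rw [this]
  exact (abs_add_le _ _).trans (add_le_add (h2 t) (h4 t))

theorem MeanIs.const_mul {h : ℝ → ℝ} {m : ℝ} (c : ℝ) (hh : MeanIs h m) :
    MeanIs (fun t => c * h t) (c * m) := by
  obtain ⟨Φ, h1, C, h2⟩ := hh
  refine ⟨fun t => c * Φ t, fun t => (h1 t).const_mul c, |c| * C, fun t => ?_⟩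
  have : c * Φ t - c * m * t = c * (Φ t - m * t) := by ring
  rw [this, abs_mul]
  exact mul_le_mul_of_nonneg_left (h2 t) (abs_nonneg c)

theorem MeanIs.zero : MeanIs (fun _ => 0) 0 :=
  ⟨fun _ => 0, fun t => hasDerivAt_const t 0, 0, fun t => by simp⟩

theorem MeanIs.sum {ι : Type*} (s : Finset ι) (h : ι → ℝ → ℝ) (m : ι → ℝ)
    (hh : ∀ i ∈ s, MeanIs (h i) (m i)) :
    MeanIs (fun t => ∑ i ∈ s, h i t) (∑ i ∈ s, m i) := by
  classical
  induction s using Finset.induction_on with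
  | empty => simpa using MeanIs.zero
  | insert i s hi ih =>
    have h1 := (hh i (mem_insert_self i s)).add (ih fun j hj => hh j (mem_insert_of_mem hj))
    simpa [sum_insert hi] using h1

theorem MeanIs.cos (l : ℝ) : MeanIs (fun t => Real.cos (l * t)) (if l = 0 then 1 else 0) := by
  by_cases hl : l = 0
  · refine ⟨fun t => t, fun t => ?_, 0, fun t => by simp [hl]⟩
    simp only [hl, zero_mul, Real.cos_zero]
    exact hasDerivAt_id' t
  · refine ⟨fun t => Real.sin (l * t) / l, fun t => ?_, 1 / |l|, fun t => ?_⟩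
    · have h1 : HasDerivAt (fun t : ℝ => l * t) (l * 1) t := (hasDerivAt_id t).const_mul l
      have h2 := (h1.sin).div_const l
      have h3 : Real.cos (l * t) * (l * 1) / l = Real.cos (l * t) := by field_simp
      rwa [h3] at h2
    · simp only [hl, if_false, zero_mul, sub_zero, abs_div]
      exact div_le_div_of_nonneg_right (Real.abs_sin_le_one _) (abs_nonneg l)

theorem MeanIs.nonneg {h : ℝ → ℝ} {m : ℝ} (hh : MeanIs h m) (h0 : ∀ t, 0 ≤ h t) : 0 ≤ m := by
  obtain ⟨Φ, h1, C, h2⟩ := hh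
  have hmono : Monotone Φ := monotone_of_deriv_nonneg (fun t => (h1 t).differentiableAt)
    fun t => by rw [(h1 t).deriv]; exact h0 t
  by_contra hcon
  push Not at hcon
  have hC : 0 ≤ C := (abs_nonneg _).trans (h2 0)
  set t : ℝ := (2 * C + 1) / (-m) with ht
  have ht0 : 0 ≤ t := by
    apply div_nonneg <;> linarith
  have h3 : Φ 0 ≤ Φ t := hmono ht0
  have h4 := (abs_le.mp (h2 0)).1
  have h5 := (abs_le.mp (h2 t)).2
  have h6 : m * t = -(2 * C + 1) := by
    rw [ht, div_neg, mul_neg, mul_div_cancel₀ _ hcon.ne]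
  simp only [mul_zero, sub_zero] at h4
  linarith

/-- Expansion of a product of trigonometric polynomials. -/
theorem expand {n : ℕ} (J : Finset ℤ) (ρ : ℤ → ℝ) (f : ℝ → ℝ)
    (hf : ∀ θ : ℝ, (f θ : ℂ) = ∑ j ∈ J, (ρ j : ℂ) * Complex.exp ((j * θ : ℝ) * Complex.I))
    (a : Fin n → ℝ) (T t : ℝ) :
    Real.cos (T * t) * ∏ i, f (a i * t) =
      ∑ x ∈ Fintype.piFinset (fun _ : Fin n => J),
        (∏ i, ρ (x i)) * Real.cos ((∑ i, a i * (x i : ℝ) - T) * t) := by
  have h1 : Complex.exp ((-(T * t) : ℝ) * Complex.I) * ((∏ i, f (a i * t) : ℝ) : ℂ) =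
      ∑ x ∈ Fintype.piFinset (fun _ : Fin n => J),
        ((∏ i, ρ (x i) : ℝ) : ℂ) *
          Complex.exp ((((∑ i, a i * (x i : ℝ) - T) * t : ℝ) : ℂ) * Complex.I) := by
    push_cast
    simp_rw [hf]
    rw [prod_univ_sum, mul_sum]
    apply sum_congr rfl
    intro x _
    rw [prod_mul_distrib, ← Complex.exp_sum, mul_left_comm, ← Complex.exp_add]
    congr 2
    push_cast
    rw [sub_mul, sub_mul, sum_mul, sum_mul, neg_mul, neg_add_eq_sub]
    congr 1
    apply sum_congr rfl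
    intro i _
    ring
  have h2 := congrArg Complex.re h1
  rw [Complex.re_sum] at h2
  simp only [Complex.re_mul_ofReal, Complex.re_ofReal_mul, Complex.exp_ofReal_mul_I_re] at h2
  rw [Real.cos_neg] at h2
  exact h2

end Pool.Agent.Helper36.Hyper
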